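import Pool.Agent.Helper21.MP.Defs2
import Pool.Agent.Helper95.RV.Upper

/-!
# Pieces V2, V3 and V6: functions of three weights, traces of products, entrywise tests
-/

set_option autoImplicit false

open Finset

namespace Pool.Agent.Helper53.MP2

open Pool.Agent.Helper22.ETModel Pool.Agent.Helper8.VT Pool.Agent.Helper8.UV
open Pool.Agent.Helper53.TC5 Pool.Agent.Helper21.MP2

/-! ### V2 -/

section V2

variable {n : ℕ}

/-- the vote `1` for the triangle `i j k` of sum `0` -/
private noncomputable def one (i j k : Fin n) (I : Inst n) : ℝ :=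
  if I.wt i j + I.wt j k + I.wt i k = 0 then 1 else 0

private def cells (i j k : Fin n) : Finset (Fin n × Fin n) := {(i, j), (j, k), (i, k)}

private lemma has_cells {i j k u v : Fin n} (h : Has (cells i j k) u v) :
    (u = i ∧ v = j) ∨ (u = j ∧ v = k) ∨ (u = i ∧ v = k) ∨
      (v = i ∧ u = j) ∨ (v = j ∧ u = k) ∨ (v = i ∧ u = k) := by
  unfold Has cells at h
  simp only [Finset.mem_insert, Finset.mem_singleton, Prod.mk.injEq] at h
  tauto

private lemma triangles_cells {i j k : Fin n} (hi : (i : ℕ) % 3 = 0) (hj : (j : ℕ) % 3 = 1)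
    (hk : (k : ℕ) % 3 = 2) : triangles (cells i j k) ≤ 1 := by
  classical
  unfold triangles
  refine Finset.card_le_one.2 ?_
  have key : ∀ t : Fin n × Fin n × Fin n, ((t.1 : ℕ) % 3 = 0 ∧ (t.2.1 : ℕ) % 3 = 1 ∧
      (t.2.2 : ℕ) % 3 = 2) ∧ Has (cells i j k) t.1 t.2.1 ∧ Has (cells i j k) t.2.1 t.2.2 ∧
        Has (cells i j k) t.1 t.2.2 → t = (i, j, k) := by
    rintro ⟨u, v, z⟩ ⟨⟨hu, hv, hz⟩, h1, h2, -⟩
    simp only at hu hv hz h1 h2
    have e1 : u = i ∧ v = j := by
      rcases has_cells h1 with h | h | h | h | h | h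
      · exact h
      all_goals
        obtain ⟨rfl, rfl⟩ := h
        omega
    have e2 : z = k := by
      rcases has_cells h2 with h | h | h | h | h | h
      · obtain ⟨rfl, rfl⟩ := h
        omega
      · exact h.2
      all_goals
        obtain ⟨rfl, rfl⟩ := h
        omega
    rw [e1.1, e1.2, e2]
  intro a ha b hb
  rw [Finset.mem_filter] at ha hb
  rw [key a ha.2, key b hb.2]

private lemma pairs_cells {i j k : Fin n} (hi : (i : ℕ) % 3 = 0) (hj : (j : ℕ) % 3 = 1)
    (hk : (k : ℕ) % 3 = 2) : pairs (cells i j k) ≤ 1 := by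
  classical
  unfold pairs
  refine Finset.card_le_one.2 ?_
  have key : ∀ t : Fin n × Fin n × Fin n, ((t.1 : ℕ) % 3 = 0 ∧ (t.2.1 : ℕ) % 3 = 1 ∧
      (t.2.2 : ℕ) % 3 = 2) ∧ Has (cells i j k) t.1 t.2.1 ∧ Has (cells i j k) t.1 t.2.2 →
        t = (i, j, k) := by
    rintro ⟨u, v, z⟩ ⟨⟨hu, hv, hz⟩, h1, h2⟩
    simp only at hu hv hz h1 h2
    have e1 : u = i ∧ v = j := by
      rcases has_cells h1 with h | h | h | h | h | h
      · exact h
      all_goals
        obtain ⟨rfl, rfl⟩ := h
        omega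
    have e2 : z = k := by
      rcases has_cells h2 with h | h | h | h | h | h
      · obtain ⟨rfl, rfl⟩ := h
        omega
      · obtain ⟨rfl, rfl⟩ := h
        omega
      · exact h.2
      all_goals
        obtain ⟨rfl, rfl⟩ := h
        omega
    rw [e1.1, e1.2, e2]
  intro a ha b hb
  rw [Finset.mem_filter] at ha hb
  rw [key a ha.2, key b hb.2]

private lemma one_congr {i j k : Fin n} {f : Flags n} {w w' : Wts n}
    (h : ∀ u v : Fin n, Has (cells i j k) u v → w u v = w' u v) :
    one i j k ⟨f, w⟩ = one i j k ⟨f, w'⟩ := by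
  have h1 := h i j (Or.inl (by simp [cells]))
  have h2 := h j k (Or.inl (by simp [cells]))
  have h3 := h i k (Or.inl (by simp [cells]))
  unfold one
  simp only [h1, h2, h3]

private lemma one_local {i j k : Fin n} (hi : (i : ℕ) % 3 = 0) (hj : (j : ℕ) % 3 = 1)
    (hk : (k : ℕ) % 3 = 2) : IsLocal 1 (one i j k) ∧ IsView 1 (one i j k) := by
  refine ⟨fun f => ⟨cells i j k, triangles_cells hi hj hk, fun w w' _ _ h => one_congr h⟩,
    fun f => ⟨cells i j k, pairs_cells hi hj hk, fun w w' _ _ h => one_congr fun u v huv =>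
      h u v (Or.inr huv)⟩⟩

private def c0 (a : Fin ((n + 2) / 3)) : Fin n := ⟨3 * a, by omega⟩
private def c1 (a : Fin ((n + 1) / 3)) : Fin n := ⟨3 * a + 1, by omega⟩
private def c2 (a : Fin (n / 3)) : Fin n := ⟨3 * a + 2, by omega⟩

end V2

/-- V2: one function of three weights for every triangle of the tripartite graph. -/
theorem upper_local (n : ℕ) :
    ∃ H : Fin ((n + 2) / 3 * ((n + 1) / 3) * (n / 3)) → Inst n → ℝ,
      (∀ r, IsLocal 1 (H r) ∧ IsView 1 (H r)) ∧
      ∀ I : Inst n, I.Valid → Tripartite I → (0 < ∑ r, H r I ↔ I.Yes) := by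
  refine ⟨fun r => one (c0 (finProdFinEquiv.symm (finProdFinEquiv.symm r).1).1)
    (c1 (finProdFinEquiv.symm (finProdFinEquiv.symm r).1).2) (c2 (finProdFinEquiv.symm r).2),
    fun r => one_local ?_ ?_ ?_, fun I hI hT => ?_⟩
  · simp only [c0]
    omega
  · simp only [c1]
    omega
  · simp only [c2]
    omega
  rw [Pool.Agent.Helper95.RV.yes_iff I hI hT]
  have h0 : ∀ i j k : Fin n, 0 ≤ one i j k I := fun i j k => by
    unfold one
    split_ifs
    · exact zero_le_one
    · exact le_refl _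
  constructor
  · intro h
    obtain ⟨r, _, hr⟩ := Finset.exists_ne_zero_of_sum_ne_zero h.ne'
    unfold one at hr
    rw [ite_ne_right_iff] at hr
    refine ⟨_, _, _, ?_, ?_, ?_, hr.1⟩
    · simp only [c0]
      omega
    · simp only [c1]
      omega
    · simp only [c2]
      omega
  · rintro ⟨i, j, k, hi, hj, hk, h⟩
    have hin := i.isLt
    have hjn := j.isLt
    have hkn := k.isLt
    set r := finProdFinEquiv (finProdFinEquiv ((⟨(i : ℕ) / 3, by omega⟩ : Fin ((n + 2) / 3)),
      (⟨(j : ℕ) / 3, by omega⟩ : Fin ((n + 1) / 3))), (⟨(k : ℕ) / 3, by omega⟩ : Fin (n / 3)))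
      with hr
    refine Finset.sum_pos' (fun _ _ => h0 _ _ _) ⟨r, Finset.mem_univ _, ?_⟩
    beta_reduce
    rw [hr, Equiv.symm_apply_apply, Equiv.symm_apply_apply]
    have e0 : c0 (⟨(i : ℕ) / 3, by omega⟩ : Fin ((n + 2) / 3)) = i := by
      apply Fin.ext
      simp only [c0]
      omega
    have e1 : c1 (⟨(j : ℕ) / 3, by omega⟩ : Fin ((n + 1) / 3)) = j := by
      apply Fin.ext
      simp only [c1]
      omega
    have e2 : c2 (⟨(k : ℕ) / 3, by omega⟩ : Fin (n / 3)) = k := by
      apply Fin.ext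
      simp only [c2]
      omega
    rw [e0, e1, e2]
    unfold one
    rw [if_pos h]
    exact zero_lt_one

/-! ### V3 -/

section V3

variable {n : ℕ}

private lemma put_self (w : Wts n) (i j : Fin n) (x : ℤ) : put w i j x i j = x := by
  unfold put
  rw [if_pos (Or.inl ⟨rfl, rfl⟩)]

private lemma put_of_ne {w : Wts n} {i j : Fin n} {x : ℤ} {u v : Fin n}
    (h1 : ¬ (u = i ∧ v = j)) (h2 : ¬ (u = j ∧ v = i)) : put w i j x u v = w u v := by
  unfold put
  rw [if_neg]
  rintro (h | h)
  · exact h1 h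
  · exact h2 h

/-- V3: traces of products of `K` triples of matrices. -/
theorem isLow_traces {n K : ℕ} (X Y Z : Fin K → Fin n → Fin n → ℤ → ℝ) :
    IsLow (active X) (traces X Y Z) := by
  classical
  intro f i j hi hj
  obtain ⟨A, hA⟩ : ∃ A : Finset (Fin K), A = univ.filter fun r : Fin K =>
    ∃ x y : ℤ, X r i j x ≠ X r i j y := ⟨_, rfl⟩
  have hcard : active X i j = A.card := by
    unfold active
    rw [hA]
  obtain ⟨e, -⟩ : ∃ e : A ≃ Fin (active X i j), True :=
    ⟨A.equivFin.trans (finCongr hcard.symm), trivial⟩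
  -- the coefficient of `X r i j x`
  obtain ⟨D, hD⟩ : ∃ D : Wts n → Fin K → ℝ, D = fun w r =>
    ∑ z : Fin n, if (z : ℕ) % 3 = 2 then Y r j z (w j z) * Z r z i (w z i) else 0 := ⟨_, rfl⟩
  obtain ⟨R, hR⟩ : ∃ R : Wts n → ℝ, R = fun w => ∑ r, ∑ u : Fin n, ∑ v : Fin n, ∑ z : Fin n,
    (if (u : ℕ) % 3 = 0 ∧ (v : ℕ) % 3 = 1 ∧ (z : ℕ) % 3 = 2 then
      (if u = i ∧ v = j then 0 else X r u v (w u v) * Y r v z (w v z) * Z r z u (w z u)) else 0) :=
    ⟨_, rfl⟩
  refine ⟨fun l x => X (e.symm l) i j x, fun w => ⟨R w + ∑ r ∈ univ \ A, D w r * X r i j 0,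
    fun l => D w (e.symm l), fun x _ => ?_⟩⟩
  have key : ∀ (r : Fin K) (u v z : Fin n),
      (if (u : ℕ) % 3 = 0 ∧ (v : ℕ) % 3 = 1 ∧ (z : ℕ) % 3 = 2 then
        X r u v (put w i j x u v) * Y r v z (put w i j x v z) * Z r z u (put w i j x z u) else 0) =
      (if (u : ℕ) % 3 = 0 ∧ (v : ℕ) % 3 = 1 ∧ (z : ℕ) % 3 = 2 then
        (if u = i ∧ v = j then 0 else X r u v (w u v) * Y r v z (w v z) * Z r z u (w z u)) else 0) +
      if u = i then (if v = j then (if (z : ℕ) % 3 = 2 then
        Y r j z (w j z) * Z r z i (w z i) else 0) * X r i j x else 0) else 0 := by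
    intro r u v z
    by_cases hc : (u : ℕ) % 3 = 0 ∧ (v : ℕ) % 3 = 1 ∧ (z : ℕ) % 3 = 2
    · obtain ⟨hu, hv, hz⟩ := hc
      have hzi : z ≠ i := by
        rintro rfl
        omega
      have hzj : z ≠ j := by
        rintro rfl
        omega
      have hvi : v ≠ i := by
        rintro rfl
        omega
      have huj : u ≠ j := by
        rintro rfl
        omega
      have e1 : put w i j x v z = w v z := put_of_ne (fun h => hvi h.1) (fun h => hzi h.2)
      have e2 : put w i j x z u = w z u := put_of_ne (fun h => hzi h.1) (fun h => hzj h.1)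
      rw [if_pos ⟨hu, hv, hz⟩, if_pos ⟨hu, hv, hz⟩, e1, e2]
      by_cases h1 : u = i ∧ v = j
      · obtain ⟨rfl, rfl⟩ := h1
        rw [put_self, if_pos ⟨rfl, rfl⟩, if_pos rfl, if_pos rfl, if_pos hz]
        ring
      · have e3 : put w i j x u v = w u v := put_of_ne h1 (fun h => huj h.1)
        rw [e3, if_neg h1]
        have e4 : (if u = i then (if v = j then (if (z : ℕ) % 3 = 2 then
            Y r j z (w j z) * Z r z i (w z i) else 0) * X r i j x else 0) else 0 : ℝ) = 0 := by
          by_cases h2 : u = i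
          · rw [if_pos h2, if_neg (fun h => h1 ⟨h2, h⟩)]
          · rw [if_neg h2]
        rw [e4, add_zero]
    · rw [if_neg hc, if_neg hc, zero_add]
      by_cases h2 : u = i
      · by_cases h3 : v = j
        · have h4 : ¬ (z : ℕ) % 3 = 2 := fun h => hc ⟨by rw [h2]; exact hi, by rw [h3]; exact hj, h⟩
          rw [if_pos h2, if_pos h3, if_neg h4, zero_mul]
        · rw [if_pos h2, if_neg h3]
      · rw [if_neg h2]
  have main : traces X Y Z ⟨f, put w i j x⟩ = R w + ∑ r, D w r * X r i j x := by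
    show ∑ r, ∑ u : Fin n, ∑ v : Fin n, ∑ z : Fin n,
      (if (u : ℕ) % 3 = 0 ∧ (v : ℕ) % 3 = 1 ∧ (z : ℕ) % 3 = 2 then
        X r u v (put w i j x u v) * Y r v z (put w i j x v z) * Z r z u (put w i j x z u) else 0) = _
    rw [hR, hD]
    simp only [key, Finset.sum_add_distrib]
    congr 1
    refine Finset.sum_congr rfl fun r _ => ?_
    have e5 : ∀ u v : Fin n, ∑ z : Fin n, (if u = i then (if v = j then (if (z : ℕ) % 3 = 2 then
          Y r j z (w j z) * Z r z i (w z i) else 0) * X r i j x else 0) else 0) =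
        if u = i then (if v = j then (∑ z : Fin n, if (z : ℕ) % 3 = 2 then
          Y r j z (w j z) * Z r z i (w z i) else 0) * X r i j x else 0) else 0 := by
      intro u v
      by_cases h2 : u = i
      · by_cases h3 : v = j
        · simp only [if_pos h2, if_pos h3, Finset.sum_mul]
        · simp only [if_pos h2, if_neg h3, Finset.sum_const_zero]
      · simp only [if_neg h2, Finset.sum_const_zero]
    simp only [e5]
    rw [Finset.sum_eq_single i, Finset.sum_eq_single j]
    · rw [if_pos rfl, if_pos rfl]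
    · intro v _ hv
      rw [if_pos rfl, if_neg hv]
    · intro h
      exact absurd (Finset.mem_univ _) h
    · intro u _ hu
      exact Finset.sum_eq_zero fun v _ => by rw [if_neg hu]
    · intro h
      exact absurd (Finset.mem_univ _) h
  have hconst : ∀ r ∈ univ \ A, D w r * X r i j x = D w r * X r i j 0 := by
    intro r hr
    have h1 : r ∉ A := (Finset.mem_sdiff.1 hr).2
    rw [hA, Finset.mem_filter] at h1
    push Not at h1
    rw [h1 (Finset.mem_univ _) x 0]
  have hsplit : ∑ r, D w r * X r i j x =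
      ∑ r ∈ univ \ A, D w r * X r i j x + ∑ r ∈ A, D w r * X r i j x :=
    (Finset.sum_sdiff (Finset.subset_univ A)).symm
  have hA2 : ∑ r ∈ A, D w r * X r i j x =
      ∑ l : Fin (active X i j), D w (e.symm l) * X (e.symm l) i j x := by
    rw [← Finset.sum_coe_sort A]
    exact (Equiv.sum_comp e.symm fun a : A => D w a * X a i j x).symm
  rw [main, hsplit, hA2, Finset.sum_congr rfl hconst, add_assoc]

end V3

/-! ### V6 and V7 -/

section V6

variable {n : ℕ}

private lemma hide_put (w : Wts n) (i j : Fin n) (hi : (i : ℕ) % 3 = 0) (hj : (j : ℕ) % 3 = 1)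
    (x : ℤ) : hide 0 1 (put w i j x) = hide 0 1 w := by
  funext u v
  unfold hide
  by_cases hs : Side 0 1 u v
  · rw [if_pos hs, if_pos hs]
  · rw [if_neg hs, if_neg hs]
    refine put_of_ne ?_ ?_
    · rintro ⟨rfl, rfl⟩
      exact hs (Or.inl ⟨hi, hj⟩)
    · rintro ⟨rfl, rfl⟩
      exact hs (Or.inr ⟨hj, hi⟩)

end V6

/-- V6: entrywise tests. -/
theorem isTest_tests {n B : ℕ} (g : Fin n → Fin n → ℤ → Fin (2 ^ B) → ℝ)
    (h : Fin n → Fin n → Flags n → Wts n → Fin (2 ^ B)) :
    IsTest (fun _ _ => 1) (fun _ _ => B) (tests g h) := by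
  classical
  intro f i j hi hj
  refine ⟨fun b _ x => g i j x b, fun w => ⟨∑ u : Fin n, ∑ v : Fin n,
    (if (u : ℕ) % 3 = 0 ∧ (v : ℕ) % 3 = 1 then
      (if u = i ∧ v = j then 0 else g u v (w u v) (h u v f (hide 0 1 w))) else 0),
    fun _ => 1, h i j f (hide 0 1 w), fun x _ => ?_⟩⟩
  have key : ∀ u v : Fin n, (if (u : ℕ) % 3 = 0 ∧ (v : ℕ) % 3 = 1 then
      g u v (put w i j x u v) (h u v f (hide 0 1 w)) else 0) =
      (if (u : ℕ) % 3 = 0 ∧ (v : ℕ) % 3 = 1 then
        (if u = i ∧ v = j then 0 else g u v (w u v) (h u v f (hide 0 1 w))) else 0) +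
      if u = i then (if v = j then g i j x (h i j f (hide 0 1 w)) else 0) else 0 := by
    intro u v
    by_cases hc : (u : ℕ) % 3 = 0 ∧ (v : ℕ) % 3 = 1
    · rw [if_pos hc, if_pos hc]
      by_cases h1 : u = i ∧ v = j
      · obtain ⟨rfl, rfl⟩ := h1
        rw [put_self, if_pos ⟨rfl, rfl⟩, if_pos rfl, if_pos rfl, zero_add]
      · have e3 : put w i j x u v = w u v := put_of_ne h1 (by
          rintro ⟨rfl, rfl⟩
          omega)
        rw [e3, if_neg h1]
        by_cases h2 : u = i
        · rw [if_pos h2, if_neg (fun h => h1 ⟨h2, h⟩), add_zero]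
        · rw [if_neg h2, add_zero]
    · rw [if_neg hc, if_neg hc, zero_add]
      by_cases h2 : u = i
      · by_cases h3 : v = j
        · exact absurd ⟨by rw [h2]; exact hi, by rw [h3]; exact hj⟩ hc
        · rw [if_pos h2, if_neg h3]
      · rw [if_neg h2]
  show ∑ u : Fin n, ∑ v : Fin n, (if (u : ℕ) % 3 = 0 ∧ (v : ℕ) % 3 = 1 then
    g u v (put w i j x u v) (h u v f (hide 0 1 (put w i j x))) else 0) = _
  rw [hide_put w i j hi hj x]
  simp only [key, Finset.sum_add_distrib]
  have e6 : ∑ u : Fin n, ∑ v : Fin n, (if u = i then (if v = j then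
      g i j x (h i j f (hide 0 1 w)) else 0) else 0) = g i j x (h i j f (hide 0 1 w)) := by
    rw [Finset.sum_eq_single i, Finset.sum_eq_single j]
    · rw [if_pos rfl, if_pos rfl]
    · intro v _ hv
      rw [if_pos rfl, if_neg hv]
    · intro h
      exact absurd (Finset.mem_univ _) h
    · intro u _ hu
      exact Finset.sum_eq_zero fun v _ => by rw [if_neg hu]
    · intro h
      exact absurd (Finset.mem_univ _) h
  rw [e6]
  simp

/-- V7: everything from `k` bits of every weight of the side `01`. -/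
theorem isTest_digest {n k B : ℕ} (θ : Fin n → Fin n → ℤ → Fin (2 ^ B) → Fin (2 ^ k))
    (h : Fin n → Fin n → Flags n → Wts n → Fin (2 ^ B))
    (F : Flags n → Wts n → (Fin n → Fin n → Fin (2 ^ k)) → ℝ) :
    IsTest (fun _ _ => 2 ^ k) (fun _ _ => B) (digest θ h F) := by
  classical
  intro f i j hi hj
  refine ⟨fun b l x => if θ i j x b = l then 1 else 0, fun w => ⟨0,
    fun l => F f (hide 0 1 w) fun u v => if u = i ∧ v = j then l else
      if (u : ℕ) % 3 = 0 ∧ (v : ℕ) % 3 = 1 then θ u v (w u v) (h u v f (hide 0 1 w))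
        else ⟨0, by positivity⟩,
    h i j f (hide 0 1 w), fun x _ => ?_⟩⟩
  show F f (hide 0 1 (put w i j x)) (fun u v => if (u : ℕ) % 3 = 0 ∧ (v : ℕ) % 3 = 1 then
    θ u v (put w i j x u v) (h u v f (hide 0 1 (put w i j x))) else ⟨0, by positivity⟩) = _
  rw [hide_put w i j hi hj x]
  have e1 : (fun u v : Fin n => if (u : ℕ) % 3 = 0 ∧ (v : ℕ) % 3 = 1 then
      θ u v (put w i j x u v) (h u v f (hide 0 1 w)) else (⟨0, by positivity⟩ : Fin (2 ^ k))) =
      fun u v => if u = i ∧ v = j then θ i j x (h i j f (hide 0 1 w)) else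
        if (u : ℕ) % 3 = 0 ∧ (v : ℕ) % 3 = 1 then θ u v (w u v) (h u v f (hide 0 1 w))
          else ⟨0, by positivity⟩ := by
    funext u v
    by_cases h1 : u = i ∧ v = j
    · obtain ⟨rfl, rfl⟩ := h1
      rw [if_pos ⟨hi, hj⟩, if_pos ⟨rfl, rfl⟩, put_self]
    · rw [if_neg h1]
      by_cases hc : (u : ℕ) % 3 = 0 ∧ (v : ℕ) % 3 = 1
      · have e3 : put w i j x u v = w u v := put_of_ne h1 (by
          rintro ⟨rfl, rfl⟩
          omega)
        rw [if_pos hc, if_pos hc, e3]
      · rw [if_neg hc, if_neg hc]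
  rw [e1, zero_add]
  simp only [mul_ite, mul_one, mul_zero]
  rw [Finset.sum_ite_eq, if_pos (Finset.mem_univ _)]

end Pool.Agent.Helper53.MP2
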