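import Pool.Agent.Helper21.MP.Defs

/-!
# Pieces U2 and U3: functions of three weights, traces of products
-/

set_option autoImplicit false

open Finset

namespace Pool.Agent.Helper53.MP

open Pool.Agent.Helper22.ETModel Pool.Agent.Helper8.VT Pool.Agent.Helper8.UV
open Pool.Agent.Helper53.TC5 Pool.Agent.Helper21.MP

open Classical in
/-- The vote `1` for the triangle `t 0`, `t 1`, `t 2` of sum `0`. -/
private noncomputable def one {n : ℕ} (t : Fin 3 → Fin n) (I : Inst n) : ℝ :=
  if t 0 ≠ t 1 ∧ t 1 ≠ t 2 ∧ t 0 ≠ t 2 ∧ I.flag (t 0) (t 1) = true ∧ I.flag (t 1) (t 2) = true ∧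
    I.flag (t 0) (t 2) = true ∧ I.wt (t 0) (t 1) + I.wt (t 1) (t 2) + I.wt (t 0) (t 2) = 0 then 1
  else 0

private lemma one_local {n : ℕ} (t : Fin 3 → Fin n) : IsLocal 3 (one t) := by
  intro f
  refine ⟨{(t 0, t 1), (t 1, t 2), (t 0, t 2)}, Finset.card_le_three, fun w w' _ _ h => ?_⟩
  have h1 := h (t 0, t 1) (by simp)
  have h2 := h (t 1, t 2) (by simp)
  have h3 := h (t 0, t 2) (by simp)
  simp only at h1 h2 h3
  unfold one
  simp only [h1, h2, h3]

/-- U2: `n ^ 3` functions of three weights decide all instances. -/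
theorem upper_local (n : ℕ) : ∃ H : Fin (n ^ 3) → Inst n → ℝ, (∀ r, IsLocal 3 (H r)) ∧
    ∀ I : Inst n, 0 < ∑ r, H r I ↔ I.Yes := by
  classical
  refine ⟨fun r => one (finFunctionFinEquiv.symm r), fun r => one_local _, fun I => ?_⟩
  have h0 : ∀ t : Fin 3 → Fin n, 0 ≤ one t I := fun t => by
    unfold one
    split_ifs
    · exact zero_le_one
    · exact le_refl _
  rw [Equiv.sum_comp finFunctionFinEquiv.symm (fun t => one t I)]
  constructor
  · intro h
    obtain ⟨t, _, ht⟩ := Finset.exists_ne_zero_of_sum_ne_zero h.ne'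
    unfold one at ht
    by_cases h1 : t 0 ≠ t 1 ∧ t 1 ≠ t 2 ∧ t 0 ≠ t 2 ∧ I.flag (t 0) (t 1) = true ∧
        I.flag (t 1) (t 2) = true ∧ I.flag (t 0) (t 2) = true ∧
        I.wt (t 0) (t 1) + I.wt (t 1) (t 2) + I.wt (t 0) (t 2) = 0
    · exact ⟨t 0, t 1, t 2, h1⟩
    · rw [if_neg h1] at ht
      exact absurd rfl ht
  · rintro ⟨i, j, k, h⟩
    have h1 : one ![i, j, k] I = 1 := by
      unfold one
      exact if_pos h
    have h2 := Finset.single_le_sum (f := fun t : Fin 3 → Fin n => one t I)
      (fun t _ => h0 t) (Finset.mem_univ ![i, j, k])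
    rw [h1] at h2
    linarith

/-- U3: traces of products of `K` triples of matrices are `K`-dimensional. -/
theorem isLow_traces {n K : ℕ} (X Y Z : Fin K → Fin n → Fin n → ℤ → ℝ) :
    IsLow K (traces X Y Z) := by
  classical
  intro f i j hi hj
  refine ⟨fun r x => X r i j x, fun w => ⟨∑ r, ∑ u : Fin n, ∑ v : Fin n, ∑ z : Fin n,
    (if (u : ℕ) % 3 = 0 ∧ (v : ℕ) % 3 = 1 ∧ (z : ℕ) % 3 = 2 then
      (if u = i ∧ v = j then 0 else X r u v (w u v) * Y r v z (w v z) * Z r z u (w z u)) else 0),
    fun r => ∑ z : Fin n, if (z : ℕ) % 3 = 2 then Y r j z (w j z) * Z r z i (w z i) else 0,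
    fun x _ => ?_⟩⟩
  have key : ∀ (r : Fin K) (u v z : Fin n),
      (if (u : ℕ) % 3 = 0 ∧ (v : ℕ) % 3 = 1 ∧ (z : ℕ) % 3 = 2 then
        X r u v (put w i j x u v) * Y r v z (put w i j x v z) * Z r z u (put w i j x z u) else 0) =
      (if (u : ℕ) % 3 = 0 ∧ (v : ℕ) % 3 = 1 ∧ (z : ℕ) % 3 = 2 then
        (if u = i ∧ v = j then 0 else X r u v (w u v) * Y r v z (w v z) * Z r z u (w z u)) else 0) +
      if u = i then (if v = j then (if (z : ℕ) % 3 = 2 then
        Y r j z (w j z) * Z r z i (w z i) else 0) * X r i j x else 0) else 0 := by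
    intro r u v z
    by_cases hc : (u : ℕ) % 3 = 0 ∧ (v : ℕ) % 3 = 1 ∧ (z : ℕ) % 3 = 2
    · obtain ⟨hu, hv, hz⟩ := hc
      have hzi : z ≠ i := by
        rintro rfl
        omega
      have hzj : z ≠ j := by
        rintro rfl
        omega
      have hvi : v ≠ i := by
        rintro rfl
        omega
      have huj : u ≠ j := by
        rintro rfl
        omega
      have e1 : put w i j x v z = w v z := by
        unfold put
        rw [if_neg]
        rintro (⟨h, _⟩ | ⟨_, h⟩)
        · exact hvi h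
        · exact hzi h
      have e2 : put w i j x z u = w z u := by
        unfold put
        rw [if_neg]
        rintro (⟨h, _⟩ | ⟨h, _⟩)
        · exact hzi h
        · exact hzj h
      rw [if_pos ⟨hu, hv, hz⟩, if_pos ⟨hu, hv, hz⟩, e1, e2]
      by_cases h1 : u = i ∧ v = j
      · obtain ⟨rfl, rfl⟩ := h1
        have e3 : put w u v x u v = x := by
          unfold put
          rw [if_pos (Or.inl ⟨rfl, rfl⟩)]
        rw [e3, if_pos ⟨rfl, rfl⟩, if_pos rfl, if_pos rfl, if_pos hz]
        ring
      · have e3 : put w i j x u v = w u v := by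
          unfold put
          rw [if_neg]
          rintro (h | ⟨h, _⟩)
          · exact h1 h
          · exact huj h
        rw [e3, if_neg h1]
        have e4 : (if u = i then (if v = j then (if (z : ℕ) % 3 = 2 then
            Y r j z (w j z) * Z r z i (w z i) else 0) * X r i j x else 0) else 0 : ℝ) = 0 := by
          by_cases h2 : u = i
          · rw [if_pos h2, if_neg (fun h => h1 ⟨h2, h⟩)]
          · rw [if_neg h2]
        rw [e4, add_zero]
    · rw [if_neg hc, if_neg hc, zero_add]
      by_cases h2 : u = i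
      · by_cases h3 : v = j
        · have h4 : ¬ (z : ℕ) % 3 = 2 := fun h => hc ⟨by rw [h2]; exact hi, by rw [h3]; exact hj, h⟩
          rw [if_pos h2, if_pos h3, if_neg h4, zero_mul]
        · rw [if_pos h2, if_neg h3]
      · rw [if_neg h2]
  show ∑ r, ∑ u : Fin n, ∑ v : Fin n, ∑ z : Fin n,
    (if (u : ℕ) % 3 = 0 ∧ (v : ℕ) % 3 = 1 ∧ (z : ℕ) % 3 = 2 then
      X r u v (put w i j x u v) * Y r v z (put w i j x v z) * Z r z u (put w i j x z u) else 0) = _
  simp only [key, Finset.sum_add_distrib]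
  congr 1
  refine Finset.sum_congr rfl fun r _ => ?_
  have e5 : ∀ u v : Fin n, ∑ z : Fin n, (if u = i then (if v = j then (if (z : ℕ) % 3 = 2 then
        Y r j z (w j z) * Z r z i (w z i) else 0) * X r i j x else 0) else 0) =
      if u = i then (if v = j then (∑ z : Fin n, if (z : ℕ) % 3 = 2 then
        Y r j z (w j z) * Z r z i (w z i) else 0) * X r i j x else 0) else 0 := by
    intro u v
    by_cases h2 : u = i
    · by_cases h3 : v = j
      · simp only [if_pos h2, if_pos h3, Finset.sum_mul]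
      · simp only [if_pos h2, if_neg h3, Finset.sum_const_zero]
    · simp only [if_neg h2, Finset.sum_const_zero]
  simp only [e5]
  rw [Finset.sum_eq_single i, Finset.sum_eq_single j]
  · rw [if_pos rfl, if_pos rfl]
  · intro v _ hv
    rw [if_pos rfl, if_neg hv]
  · intro h
    exact absurd (Finset.mem_univ _) h
  · intro u _ hu
    exact Finset.sum_eq_zero fun v _ => by rw [if_neg hu]
  · intro h
    exact absurd (Finset.mem_univ _) h

end Pool.Agent.Helper53.MP
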